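import Pool.Agent.H92.Diam.KK

set_option autoImplicit false

/-!
# DIAM-17: the exact step
-/

namespace Pool.Agent.H92.Diam

open Finset Pool.Agent.H30.Diam

section basics

variable {V : Type} [DecidableEq V]

/-- the members of the family with trace `t` on `Q` and with `a` elements outside `Q` -/
def cl (𝓔 : Finset (Finset V)) (Q t : Finset V) (a : ℕ) : Finset (Finset V) :=
  𝓔.filter (fun F => F ∩ Q = t ∧ (F \ Q).card = a)

lemma mem_cl {𝓔 : Finset (Finset V)} {Q t F : Finset V} {a : ℕ} :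
    F ∈ cl 𝓔 Q t a ↔ F ∈ 𝓔 ∧ F ∩ Q = t ∧ (F \ Q).card = a := by
  rw [cl, mem_filter]

/-- the distance to a subset of `Q` -/
lemma card_symmDiff_sub {Q A : Finset V} (hA : A ⊆ Q) (F : Finset V) :
    (symmDiff F A).card = (symmDiff (F ∩ Q) A).card + (F \ Q).card := by
  have h1 : symmDiff F A = symmDiff (F ∩ Q) A ∪ (F \ Q) := by
    ext v
    simp only [mem_symmDiff, mem_union, mem_inter, mem_sdiff]
    by_cases h : v ∈ A
    · have := hA h
      tauto
    · tauto
  have h2 : Disjoint (symmDiff (F ∩ Q) A) (F \ Q) := by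
    rw [disjoint_left]
    intro v hv hv'
    simp only [mem_symmDiff, mem_inter, mem_sdiff] at hv hv'
    have := @hA v
    tauto
  rw [h1, card_union_of_disjoint h2]

/-- the distance of two members in terms of traces -/
lemma card_symmDiff_split (Q F G : Finset V) :
    (symmDiff F G).card = (symmDiff (F ∩ Q) (G ∩ Q)).card + (symmDiff (F \ Q) (G \ Q)).card := by
  have h1 : symmDiff F G = symmDiff (F ∩ Q) (G ∩ Q) ∪ symmDiff (F \ Q) (G \ Q) := by
    ext v
    simp only [mem_symmDiff, mem_union, mem_inter, mem_sdiff]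
    tauto
  have h2 : Disjoint (symmDiff (F ∩ Q) (G ∩ Q)) (symmDiff (F \ Q) (G \ Q)) := by
    rw [disjoint_left]
    intro v hv hv'
    simp only [mem_symmDiff, mem_inter, mem_sdiff] at hv hv'
    tauto
  rw [h1, card_union_of_disjoint h2]

lemma card_trace (Q F : Finset V) : F.card = (F ∩ Q).card + (F \ Q).card :=
  (card_inter_add_card_sdiff F Q).symm

lemma card_symmDiff_disj {F G : Finset V} (h : Disjoint F G) :
    (symmDiff F G).card = F.card + G.card := by
  rw [h.symmDiff_eq_sup, sup_eq_union, card_union_of_disjoint h]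

/-- parity of the symmetric difference -/
lemma card_symmDiff_mod (F G : Finset V) : (symmDiff F G).card % 2 = (F.card + G.card) % 2 := by
  have h1 : (symmDiff F G).card + 2 * (F ∩ G).card = F.card + G.card := by
    have h2 : (symmDiff F G).card = (F \ G).card + (G \ F).card := by
      rw [symmDiff_def, sup_eq_union, card_union_of_disjoint disjoint_sdiff_sdiff]
    have h3 := card_inter_add_card_sdiff F G
    have h4 := card_inter_add_card_sdiff G F
    rw [inter_comm] at h4
    omega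
  omega

end basics

section count

variable {V : Type} [DecidableEq V] {Q : Finset V}

/-- the even subsets of `Q` -/
def ev (Q : Finset V) : Finset (Finset V) := Q.powerset.filter (fun A => Even A.card)

/-- the odd subsets of `Q` -/
def od (Q : Finset V) : Finset (Finset V) := Q.powerset.filter (fun A => Odd A.card)

omit [DecidableEq V] in
lemma mem_ev {A : Finset V} : A ∈ ev Q ↔ A ⊆ Q ∧ Even A.card := by
  rw [ev, mem_filter, mem_powerset]

omit [DecidableEq V] in
lemma mem_od {A : Finset V} : A ∈ od Q ↔ A ⊆ Q ∧ Odd A.card := by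
  rw [od, mem_filter, mem_powerset]

lemma card_ev (hQ : Q.card = 3) : (ev Q).card = 4 := by
  have h1 : ev Q = powersetCard 0 Q ∪ powersetCard 2 Q := by
    ext A
    rw [mem_ev, mem_union, mem_powersetCard, mem_powersetCard]
    constructor
    · rintro ⟨h, h'⟩
      have h2 := card_le_card h
      rw [Nat.even_iff] at h'
      have : A.card = 0 ∨ A.card = 2 := by omega
      rcases this with h3 | h3
      · exact Or.inl ⟨h, h3⟩
      · exact Or.inr ⟨h, h3⟩
    · rintro (⟨h, h'⟩ | ⟨h, h'⟩)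
      · exact ⟨h, by rw [h']; exact Nat.even_iff.2 rfl⟩
      · exact ⟨h, by rw [h']; exact Nat.even_iff.2 rfl⟩
  have h2 : Disjoint (powersetCard 0 Q) (powersetCard 2 Q) := by
    rw [disjoint_left]
    intro A hA hA'
    rw [mem_powersetCard] at hA hA'
    omega
  rw [h1, card_union_of_disjoint h2, card_powersetCard, card_powersetCard, hQ]
  rfl

lemma card_od (hQ : Q.card = 3) : (od Q).card = 4 := by
  have h1 : od Q = powersetCard 1 Q ∪ powersetCard 3 Q := by
    ext A
    rw [mem_od, mem_union, mem_powersetCard, mem_powersetCard]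
    constructor
    · rintro ⟨h, h'⟩
      have h2 := card_le_card h
      rw [Nat.odd_iff] at h'
      have : A.card = 1 ∨ A.card = 3 := by omega
      rcases this with h3 | h3
      · exact Or.inl ⟨h, h3⟩
      · exact Or.inr ⟨h, h3⟩
    · rintro (⟨h, h'⟩ | ⟨h, h'⟩)
      · exact ⟨h, by rw [h']; exact Nat.odd_iff.2 rfl⟩
      · exact ⟨h, by rw [h']; exact Nat.odd_iff.2 rfl⟩
  have h2 : Disjoint (powersetCard 1 Q) (powersetCard 3 Q) := by
    rw [disjoint_left]
    intro A hA hA'
    rw [mem_powersetCard] at hA hA'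
    omega
  rw [h1, card_union_of_disjoint h2, card_powersetCard, card_powersetCard, hQ]
  rfl

/-- the classes which contribute to all four centres -/
def Bad (d : ℕ) (t : Finset V) (a : ℕ) : Prop :=
  (Odd t.card ∧ d + 1 ≤ a) ∨ (Even t.card ∧ d ≤ a)

lemma exists_p (hQ : Q.card = 3) {t : Finset V} (ht : t ⊆ Q) {a d : ℕ} (hb : Bad d t a) :
    ∃ p ∈ od Q, d + 1 < (symmDiff t p).card + a := by
  rcases hb with ⟨h1, h2⟩ | ⟨h1, h2⟩
  · obtain ⟨p, hp, hpt⟩ : ∃ p ∈ od Q, p ≠ t := by
      have h3 : ({t} : Finset (Finset V)).card < (od Q).card := by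
        rw [card_singleton, card_od hQ]
        norm_num
      obtain ⟨p, hp, hp'⟩ := exists_mem_notMem_of_card_lt_card h3
      exact ⟨p, hp, by simpa using hp'⟩
    refine ⟨p, hp, ?_⟩
    have h4 := card_symmDiff_mod t p
    have h5 := (mem_od.1 hp).2
    rw [Nat.odd_iff] at h1 h5
    have h6 : (symmDiff t p).card ≠ 0 := by
      rw [Ne, card_eq_zero, ← bot_eq_empty, symmDiff_eq_bot]
      exact fun h => hpt h.symm
    omega
  · refine ⟨Q \ t, mem_od.2 ⟨sdiff_subset, ?_⟩, ?_⟩
    · rw [card_sdiff_of_subset ht, hQ]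
      rw [Nat.even_iff] at h1
      rw [Nat.odd_iff]
      have := card_le_card ht
      omega
    · rw [card_symmDiff_disj disjoint_sdiff, card_sdiff_of_subset ht, hQ]
      have := card_le_card ht
      omega

open Classical in
/-- the number of the centres from which `F` is too far -/
lemma pointwise (hQ : Q.card = 3) {d : ℕ} (hd : 1 ≤ d) {F : Finset V} (hF : F.card % 2 = d % 2) :
    ((ev Q).filter (fun A => d < (symmDiff F A).card)).card ≤
      (if Odd (F ∩ Q).card ∧ (F \ Q).card = d - 1 then 1 else 0) +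
        4 * (if Bad d (F ∩ Q) (F \ Q).card then 1 else 0) := by
  by_cases hb : Bad d (F ∩ Q) (F \ Q).card
  · rw [if_pos hb]
    have h1 : ((ev Q).filter (fun A => d < (symmDiff F A).card)).card ≤ 4 := by
      rw [← card_ev hQ]
      exact card_filter_le _ _
    omega
  · rw [if_neg hb, mul_zero, add_zero]
    have hFt := card_trace Q F
    have hle : ∀ A ∈ ev Q, (symmDiff (F ∩ Q) A).card ≤ 3 := fun A hA => by
      rw [← hQ]
      refine card_le_card ?_
      rw [symmDiff_def, sup_eq_union]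
      exact union_subset (sdiff_subset.trans inter_subset_right)
        (sdiff_subset.trans (mem_ev.1 hA).1)
    unfold Bad at hb
    push Not at hb
    obtain ⟨hb1, hb2⟩ := hb
    rcases Nat.even_or_odd (F ∩ Q).card with he | ho
    · have h1 := hb2 he
      have h2 : (ev Q).filter (fun A => d < (symmDiff F A).card) = ∅ := by
        rw [filter_eq_empty_iff]
        intro A hA
        have h3 := card_symmDiff_mod (F ∩ Q) A
        have h4 := hle A hA
        have h5 := (mem_ev.1 hA).2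
        rw [card_symmDiff_sub (mem_ev.1 hA).1]
        rw [Nat.even_iff] at he h5
        omega
      rw [h2, card_empty]
      exact Nat.zero_le _
    · have h1 := hb1 ho
      by_cases ha : (F \ Q).card = d - 1
      · rw [if_pos ⟨ho, ha⟩, card_le_one]
        have h2 : ∀ A ∈ (ev Q).filter (fun A => d < (symmDiff F A).card),
            symmDiff (F ∩ Q) A = Q := by
          intro A hA
          rw [mem_filter] at hA
          obtain ⟨hA, hA'⟩ := hA
          have h3 := card_symmDiff_mod (F ∩ Q) A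
          have h4 := hle A hA
          have h5 := (mem_ev.1 hA).2
          rw [card_symmDiff_sub (mem_ev.1 hA).1] at hA'
          rw [Nat.even_iff] at h5
          rw [Nat.odd_iff] at ho
          refine eq_of_subset_of_card_le ?_ (by omega)
          rw [symmDiff_def, sup_eq_union]
          exact union_subset (sdiff_subset.trans inter_subset_right)
            (sdiff_subset.trans (mem_ev.1 hA).1)
        intro A hA B hB
        exact symmDiff_right_injective (F ∩ Q) ((h2 A hA).trans (h2 B hB).symm)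
      · have h2 : (ev Q).filter (fun A => d < (symmDiff F A).card) = ∅ := by
          rw [filter_eq_empty_iff]
          intro A hA
          have h4 := hle A hA
          rw [card_symmDiff_sub (mem_ev.1 hA).1]
          rw [Nat.odd_iff] at ho
          omega
        rw [h2, card_empty]
        exact Nat.zero_le _

end count

section main

variable {V : Type} [Fintype V] [DecidableEq V] {Q : Finset V} {𝓔 : Finset (Finset V)} {d : ℕ}

lemma card_R (hQ : Q.card = 3) : (univ \ Q).card = Fintype.card V - 3 := by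
  rw [card_sdiff_of_subset (subset_univ _), card_univ, hQ]

omit [Fintype V] in
/-- removing the trace is injective on a class -/
lemma card_image_cl (t : Finset V) (a : ℕ) :
    ((cl 𝓔 Q t a).image (fun F => F \ Q)).card = (cl 𝓔 Q t a).card := by
  refine card_image_of_injOn fun F hF G hG h => ?_
  have hF' := (mem_cl.1 (mem_coe.1 hF)).2.1
  have hG' := (mem_cl.1 (mem_coe.1 hG)).2.1
  have h' : F \ Q = G \ Q := h
  have e1 : F ∩ Q ∪ F \ Q = F := by
    ext v
    simp only [mem_union, mem_inter, mem_sdiff]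
    tauto
  have e2 : G ∩ Q ∪ G \ Q = G := by
    ext v
    simp only [mem_union, mem_inter, mem_sdiff]
    tauto
  rw [← e1, ← e2, h', hF', hG']

lemma card_cl_le (hQ : Q.card = 3) (t : Finset V) (a : ℕ) :
    (cl 𝓔 Q t a).card ≤ (Fintype.card V - 3).choose a := by
  rw [← card_image_cl, ← card_R hQ, ← card_powersetCard]
  refine card_le_card fun F' hF' => ?_
  obtain ⟨F, hF, rfl⟩ := mem_image.1 hF'
  exact mem_powersetCard.2 ⟨sdiff_subset_sdiff (subset_univ _) (Subset.refl _), (mem_cl.1 hF).2.2⟩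

lemma kk_cl (hQ : Q.card = 3) (hd : 1 ≤ d) (hm : 2 ^ 20 * d ≤ Fintype.card V) (hE : Fam d 𝓔)
    {t p : Finset V} {a : ℕ} (hda : d ≤ a) (hp : d + 1 < (symmDiff t p).card + a)
    (hne : (cl 𝓔 Q p (d - 1)).Nonempty) (hne' : (cl 𝓔 Q t a).Nonempty)
    (hsm : 2 ^ 12 * 8 ^ (a + 1 - d) * (cl 𝓔 Q t a).card ≤ (Fintype.card V - 3).choose (d - 1)) :
    2 ^ (a + 1 - d + 8) * (cl 𝓔 Q t a).card + (cl 𝓔 Q p (d - 1)).card ≤
      (Fintype.card V - 3).choose (d - 1) := by
  have hdist : ∀ G ∈ cl 𝓔 Q t a, ∀ F ∈ cl 𝓔 Q p (d - 1),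
      (symmDiff t p).card + (symmDiff (G \ Q) (F \ Q)).card ≤ 2 * d := by
    intro G hG F hF
    rw [mem_cl] at hG hF
    have h1 := hE.diam G hG.1 F hF.1
    rw [card_symmDiff_split Q, hG.2.1, hF.2.1] at h1
    exact h1
  have ha : a ≤ 3 * d := by
    obtain ⟨F, hF⟩ := hne
    obtain ⟨G, hG⟩ := hne'
    have h1 := hdist G hG F hF
    have h2 : (G \ Q).card ≤ (symmDiff (G \ Q) (F \ Q)).card + (F \ Q).card := by
      refine le_trans (card_le_card ?_) (card_union_le _ _)
      intro v hv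
      rw [mem_union, mem_symmDiff]
      tauto
    rw [(mem_cl.1 hG).2.2, (mem_cl.1 hF).2.2] at h2
    omega
  have h3 := kk V (univ \ Q) a (d - 1) (a + 1 - d) ((cl 𝓔 Q t a).image (fun F => F \ Q))
    ((cl 𝓔 Q p (d - 1)).image (fun F => F \ Q)) (by omega) (by rw [card_R hQ]; omega)
    (by
      intro G' hG'
      obtain ⟨G, hG, rfl⟩ := mem_image.1 hG'
      exact ⟨sdiff_subset_sdiff (subset_univ _) (Subset.refl _), (mem_cl.1 hG).2.2⟩)
    (by
      intro G' hG'
      obtain ⟨G, hG, rfl⟩ := mem_image.1 hG'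
      exact ⟨sdiff_subset_sdiff (subset_univ _) (Subset.refl _), (mem_cl.1 hG).2.2⟩)
    (by
      intro G' hG' F' hF' hdis
      obtain ⟨G, hG, rfl⟩ := mem_image.1 hG'
      obtain ⟨F, hF, rfl⟩ := mem_image.1 hF'
      have h4 := hdist G hG F hF
      rw [card_symmDiff_disj hdis, (mem_cl.1 hG).2.2, (mem_cl.1 hF).2.2] at h4
      omega)
    (by rw [card_image_cl, card_R hQ]; exact hsm)
  rw [card_image_cl, card_image_cl, card_R hQ] at h3
  exact h3

lemma U_nonneg (d m : ℕ) : 0 ≤ U d m := by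
  unfold U
  positivity

lemma small (hQ : Q.card = 3) (hE : Fam d 𝓔) (hG : Good d 𝓔 1)
    (h1 : (((lev 𝓔 (d + 2)).filter (fun F => ¬ Q ⊆ F)).card : ℝ) ≤
      3 * tau * U d (Fintype.card V))
    (h0 : (((lev 𝓔 d).filter (fun F => Disjoint F Q)).card : ℝ) ≤ tau * U d (Fintype.card V))
    {t : Finset V} {a : ℕ} (ht : t ⊆ Q) (hb : Bad d t a) :
    (2 : ℝ) ^ 12 * 8 ^ (a + 1 - d) * (cl 𝓔 Q t a).card ≤ U d (Fintype.card V) := by
  have hU := U_nonneg d (Fintype.card V)
  rcases (cl 𝓔 Q t a).eq_empty_or_nonempty with he | ⟨F₀, hF₀⟩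
  · rw [he, card_empty, Nat.cast_zero, mul_zero]
    exact hU
  have htc := card_le_card ht
  rw [hQ] at htc
  have hsize : ∀ F ∈ cl 𝓔 Q t a, F.card = t.card + a := by
    intro F hF
    rw [card_trace Q F, (mem_cl.1 hF).2.1, (mem_cl.1 hF).2.2]
  have hpar := hE.par F₀ (mem_cl.1 hF₀).1
  rw [hsize F₀ hF₀] at hpar
  have hda : d ≤ a := by
    rcases hb with h | h
    · omega
    · exact h.2
  obtain ⟨i, hi⟩ : ∃ i, t.card + a = d + 2 * i := ⟨(t.card + a - d) / 2, by omega⟩
  have hs : a + 1 - d ≤ 2 * i + 1 := by omega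
  have h8 : (8 : ℝ) ^ (a + 1 - d) ≤ 8 ^ (2 * i + 1) := pow_le_pow_right₀ (by norm_num) hs
  rcases Nat.lt_or_ge 1 i with hi1 | hi1
  · -- high levels
    have h2 : ((cl 𝓔 Q t a).card : ℝ) ≤ eps i * U d (Fintype.card V) := by
      refine le_trans ?_ (hG i hi1)
      exact_mod_cast card_le_card fun F hF => by
        rw [lev, mem_filter]
        exact ⟨(mem_cl.1 hF).1, (hsize F hF).trans hi⟩
    have h3 : (2 : ℝ) ^ 12 * 8 ^ (2 * i + 1) * eps i ≤ 1 := by
      unfold eps
      have h4 : (8 : ℝ) ^ (2 * i + 1) = 8 * 64 ^ i := by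
        rw [pow_succ, pow_mul]
        norm_num
        ring
      have h5 : (64 : ℝ) ^ i * (1 / 4096) ^ i = (1 / 64) ^ i := by
        rw [← mul_pow]
        norm_num
      have h6 : ((1 : ℝ) / 64) ^ i ≤ 1 / 64 := by
        calc ((1 : ℝ) / 64) ^ i ≤ (1 / 64) ^ 1 :=
              pow_le_pow_of_le_one (by norm_num) (by norm_num) hi1.le
          _ = 1 / 64 := pow_one _
      calc (2 : ℝ) ^ 12 * 8 ^ (2 * i + 1) * (1 / 2 ^ 9 * (1 / 4096) ^ i) =
          64 * (64 ^ i * (1 / 4096) ^ i) := by rw [h4]; ring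
        _ ≤ 1 := by rw [h5]; linarith
    calc (2 : ℝ) ^ 12 * 8 ^ (a + 1 - d) * (cl 𝓔 Q t a).card ≤
        2 ^ 12 * 8 ^ (2 * i + 1) * (eps i * U d (Fintype.card V)) := by gcongr
      _ = (2 ^ 12 * 8 ^ (2 * i + 1) * eps i) * U d (Fintype.card V) := by ring
      _ ≤ 1 * U d (Fintype.card V) := mul_le_mul_of_nonneg_right h3 hU
      _ = U d (Fintype.card V) := one_mul _
  · have htau : (0 : ℝ) ≤ tau := by unfold tau; positivity
    have hi2 : i = 0 ∨ i = 1 := by omega
    rcases hi2 with rfl | rfl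
    · -- level `d`
      have ht0 : t = ∅ := by
        rw [← card_eq_zero]
        omega
      have h2 : ((cl 𝓔 Q t a).card : ℝ) ≤ tau * U d (Fintype.card V) := by
        refine le_trans ?_ h0
        exact_mod_cast card_le_card fun F hF => by
          rw [mem_filter, lev, mem_filter]
          refine ⟨⟨(mem_cl.1 hF).1, (hsize F hF).trans hi⟩, ?_⟩
          rw [disjoint_iff_inter_eq_empty, (mem_cl.1 hF).2.1, ht0]
      calc (2 : ℝ) ^ 12 * 8 ^ (a + 1 - d) * (cl 𝓔 Q t a).card ≤
          2 ^ 12 * 8 ^ (2 * 0 + 1) * (tau * U d (Fintype.card V)) := by gcongr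
        _ = (2 ^ 12 * 8 ^ (2 * 0 + 1) * tau) * U d (Fintype.card V) := by ring
        _ ≤ 1 * U d (Fintype.card V) := by
          refine mul_le_mul_of_nonneg_right ?_ hU
          unfold tau
          norm_num
        _ = U d (Fintype.card V) := one_mul _
    · -- level `d + 2`
      have h2 : ((cl 𝓔 Q t a).card : ℝ) ≤ 3 * tau * U d (Fintype.card V) := by
        refine le_trans ?_ h1
        exact_mod_cast card_le_card fun F hF => by
          rw [mem_filter, lev, mem_filter]
          refine ⟨⟨(mem_cl.1 hF).1, (hsize F hF).trans hi⟩, fun hQF => ?_⟩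
          have h3 := (mem_cl.1 hF).2.1
          rw [inter_eq_right.2 hQF] at h3
          rw [← h3, hQ] at hi
          omega
      calc (2 : ℝ) ^ 12 * 8 ^ (a + 1 - d) * (cl 𝓔 Q t a).card ≤
          2 ^ 12 * 8 ^ (2 * 1 + 1) * (3 * tau * U d (Fintype.card V)) := by gcongr
        _ = (2 ^ 12 * 8 ^ (2 * 1 + 1) * (3 * tau)) * U d (Fintype.card V) := by ring
        _ ≤ 1 * U d (Fintype.card V) := by
          refine mul_le_mul_of_nonneg_right ?_ hU
          unfold tau
          norm_num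
        _ = U d (Fintype.card V) := one_mul _

/-- the total loss -/
noncomputable def loss (𝓔 : Finset (Finset V)) (Q : Finset V) (d : ℕ) : ℝ :=
  ∑ p ∈ od Q, (U d (Fintype.card V) - (cl 𝓔 Q p (d - 1)).card)

lemma le_loss (hQ : Q.card = 3) {p : Finset V} (hp : p ∈ od Q) :
    U d (Fintype.card V) - (cl 𝓔 Q p (d - 1)).card ≤ loss 𝓔 Q d := by
  unfold loss
  refine single_le_sum (f := fun p => U d (Fintype.card V) - ((cl 𝓔 Q p (d - 1)).card : ℝ))
    (fun p _ => ?_) hp
  have h1 : ((cl 𝓔 Q p (d - 1)).card : ℝ) ≤ U d (Fintype.card V) := by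
    unfold U
    exact_mod_cast card_cl_le hQ p (d - 1)
  exact sub_nonneg.2 h1

lemma loss_nonneg (hQ : Q.card = 3) : 0 ≤ loss 𝓔 Q d := by
  unfold loss
  refine sum_nonneg fun p _ => ?_
  have h1 : ((cl 𝓔 Q p (d - 1)).card : ℝ) ≤ U d (Fintype.card V) := by
    unfold U
    exact_mod_cast card_cl_le hQ p (d - 1)
  exact sub_nonneg.2 h1

lemma class_le (hQ : Q.card = 3) (hd : 1 ≤ d) (hm : 2 ^ 20 * d ≤ Fintype.card V) (hE : Fam d 𝓔)
    (hG : Good d 𝓔 1)
    (h1 : (((lev 𝓔 (d + 2)).filter (fun F => ¬ Q ⊆ F)).card : ℝ) ≤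
      3 * tau * U d (Fintype.card V))
    (h0 : (((lev 𝓔 d).filter (fun F => Disjoint F Q)).card : ℝ) ≤ tau * U d (Fintype.card V))
    {t : Finset V} {a : ℕ} (ht : t ⊆ Q) (hb : Bad d t a) :
    ((cl 𝓔 Q t a).card : ℝ) ≤ (1 / 2) ^ (a + 1 - d + 8) * loss 𝓔 Q d := by
  have hda : d ≤ a := by
    rcases hb with h | h
    · omega
    · exact h.2
  suffices h : (2 : ℝ) ^ (a + 1 - d + 8) * (cl 𝓔 Q t a).card ≤ loss 𝓔 Q d by
    have h2 : ((1 : ℝ) / 2) ^ (a + 1 - d + 8) * 2 ^ (a + 1 - d + 8) = 1 := by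
      rw [← mul_pow]
      norm_num
    calc ((cl 𝓔 Q t a).card : ℝ) =
        (1 / 2) ^ (a + 1 - d + 8) * (2 ^ (a + 1 - d + 8) * (cl 𝓔 Q t a).card) := by
          rw [← mul_assoc, h2, one_mul]
      _ ≤ (1 / 2) ^ (a + 1 - d + 8) * loss 𝓔 Q d := by gcongr
  rcases (cl 𝓔 Q t a).eq_empty_or_nonempty with he | hne'
  · rw [he, card_empty, Nat.cast_zero, mul_zero]
    exact loss_nonneg hQ
  have hsm := small hQ hE hG h1 h0 ht hb
  obtain ⟨p, hp, hpt⟩ := exists_p hQ ht hb
  rcases (cl 𝓔 Q p (d - 1)).eq_empty_or_nonempty with he | hne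
  · have h2 := le_loss (𝓔 := 𝓔) (d := d) hQ hp
    rw [he, card_empty, Nat.cast_zero, sub_zero] at h2
    refine le_trans ?_ (hsm.trans h2)
    refine mul_le_mul_of_nonneg_right ?_ (Nat.cast_nonneg _)
    rw [pow_add]
    have h3 : (2 : ℝ) ^ (a + 1 - d) ≤ 8 ^ (a + 1 - d) := by gcongr; norm_num
    have h4 : (0 : ℝ) ≤ 8 ^ (a + 1 - d) := by positivity
    linarith
  · have hsm' : 2 ^ 12 * 8 ^ (a + 1 - d) * (cl 𝓔 Q t a).card ≤
        (Fintype.card V - 3).choose (d - 1) := by
      unfold U at hsm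
      exact_mod_cast hsm
    have h2 := kk_cl hQ hd hm hE hda hpt hne hne' hsm'
    refine le_trans ?_ (le_loss (𝓔 := 𝓔) (d := d) hQ hp)
    rw [le_sub_iff_add_le]
    unfold U
    exact_mod_cast h2

lemma geom (d n : ℕ) : ∑ a ∈ Ico d n, ((1 : ℝ) / 2) ^ (a + 1 - d + 8) ≤ 1 / 256 := by
  rw [sum_Ico_eq_sum_range]
  have h1 : ∀ k ∈ range (n - d), ((1 : ℝ) / 2) ^ (d + k + 1 - d + 8) = 1 / 512 * (1 / 2) ^ k := by
    intro k _
    rw [show d + k + 1 - d + 8 = k + 9 by omega, pow_add]
    norm_num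
    ring
  rw [sum_congr rfl h1, ← mul_sum, geom_sum_eq (by norm_num)]
  have h2 : (0 : ℝ) ≤ (1 / 2) ^ (n - d) := by positivity
  have h3 : (((1 : ℝ) / 2) ^ (n - d) - 1) / (1 / 2 - 1) = 2 * (1 - (1 / 2) ^ (n - d)) := by ring
  rw [h3]
  linarith

end main

open Classical in
theorem exact_step : S_exact := by
  intro d hd V _ _ hm 𝓔 hE hG Q hQ h1 h0
  have e1 : ∑ A ∈ ev Q, (𝓔.filter (fun F => d < (symmDiff F A).card)).card =
      ∑ F ∈ 𝓔, ((ev Q).filter (fun A => d < (symmDiff F A).card)).card := by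
    simp only [card_filter]
    exact sum_comm
  have e2 : ∑ A ∈ ev Q, (𝓔.filter (fun F => d < (symmDiff F A).card)).card ≤
      (𝓔.filter (fun F => Odd (F ∩ Q).card ∧ (F \ Q).card = d - 1)).card +
        4 * (𝓔.filter (fun F => Bad d (F ∩ Q) (F \ Q).card)).card := by
    rw [e1, card_filter, card_filter, mul_sum, ← sum_add_distrib]
    exact sum_le_sum fun F hF => pointwise hQ hd (hE.par F hF)
  have e3 : (𝓔.filter (fun F => Odd (F ∩ Q).card ∧ (F \ Q).card = d - 1)).card =
      ∑ p ∈ od Q, (cl 𝓔 Q p (d - 1)).card := by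
    rw [card_eq_sum_card_fiberwise (f := fun F => F ∩ Q) (t := od Q)]
    · refine sum_congr rfl fun p hp => ?_
      congr 1
      ext F
      rw [mem_filter, mem_filter, mem_cl]
      constructor
      · rintro ⟨⟨h2, h3, h4⟩, h5⟩
        exact ⟨h2, h5, h4⟩
      · rintro ⟨h2, h3, h4⟩
        exact ⟨⟨h2, by rw [h3]; exact (mem_od.1 hp).2, h4⟩, h3⟩
    · intro F hF
      rw [mem_coe, mem_filter] at hF
      rw [mem_coe, mem_od]
      exact ⟨inter_subset_right, hF.2.1⟩
  have e4 : (𝓔.filter (fun F => Bad d (F ∩ Q) (F \ Q).card)).card =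
      ∑ t ∈ Q.powerset, ∑ a ∈ Ico d (Fintype.card V + 1),
        (if Bad d t a then (cl 𝓔 Q t a).card else 0) := by
    rw [card_eq_sum_card_fiberwise (f := fun F => F ∩ Q) (t := Q.powerset)]
    · refine sum_congr rfl fun t _ => ?_
      rw [card_eq_sum_card_fiberwise (f := fun F => (F \ Q).card) (t := Ico d (Fintype.card V + 1))]
      · refine sum_congr rfl fun a _ => ?_
        by_cases hb : Bad d t a
        · rw [if_pos hb]
          congr 1
          ext F
          rw [mem_filter, mem_filter, mem_filter, mem_cl]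
          constructor
          · rintro ⟨⟨⟨h2, h3⟩, h4⟩, h5⟩
            exact ⟨h2, h4, h5⟩
          · rintro ⟨h2, h3, h4⟩
            exact ⟨⟨⟨h2, by rw [h3, h4]; exact hb⟩, h3⟩, h4⟩
        · rw [if_neg hb, card_eq_zero, filter_eq_empty_iff]
          intro F hF hFa
          rw [mem_filter, mem_filter] at hF
          rw [← hF.2, ← hFa] at hb
          exact hb hF.1.2
      · intro F hF
        rw [mem_coe, mem_filter, mem_filter] at hF
        rw [mem_coe, mem_Ico]
        refine ⟨?_, Nat.lt_succ_of_le (card_le_univ _)⟩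
        change d ≤ (F \ Q).card
        rcases hF.1.2 with h | h
        · omega
        · exact h.2
    · intro F _
      rw [mem_coe, mem_powerset]
      exact inter_subset_right
  have e5 : ((𝓔.filter (fun F => Bad d (F ∩ Q) (F \ Q).card)).card : ℝ) ≤
      8 * (1 / 256 * loss 𝓔 Q d) := by
    rw [e4]
    push_cast
    have h2 : ∀ t ∈ Q.powerset, ∑ a ∈ Ico d (Fintype.card V + 1),
        (if Bad d t a then ((cl 𝓔 Q t a).card : ℝ) else 0) ≤ 1 / 256 * loss 𝓔 Q d := by
      intro t ht
      calc ∑ a ∈ Ico d (Fintype.card V + 1), (if Bad d t a then ((cl 𝓔 Q t a).card : ℝ) else 0) ≤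
          ∑ a ∈ Ico d (Fintype.card V + 1), (1 / 2) ^ (a + 1 - d + 8) * loss 𝓔 Q d := by
            refine sum_le_sum fun a _ => ?_
            by_cases hb : Bad d t a
            · rw [if_pos hb]
              exact class_le hQ hd hm hE hG h1 h0 (mem_powerset.1 ht) hb
            · rw [if_neg hb]
              exact mul_nonneg (by positivity) (loss_nonneg hQ)
        _ = (∑ a ∈ Ico d (Fintype.card V + 1), ((1 : ℝ) / 2) ^ (a + 1 - d + 8)) * loss 𝓔 Q d := by
            rw [sum_mul]
        _ ≤ 1 / 256 * loss 𝓔 Q d := mul_le_mul_of_nonneg_right (geom _ _) (loss_nonneg hQ)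
    refine (sum_le_card_nsmul _ _ _ h2).trans (le_of_eq ?_)
    rw [card_powerset, hQ, nsmul_eq_mul]
    norm_num
  have e6 : (∑ p ∈ od Q, ((cl 𝓔 Q p (d - 1)).card : ℝ)) =
      4 * U d (Fintype.card V) - loss 𝓔 Q d := by
    unfold loss
    rw [sum_sub_distrib, sum_const, card_od hQ, nsmul_eq_mul]
    push_cast
    ring
  have hl := loss_nonneg (𝓔 := 𝓔) (d := d) hQ
  have e7 : ((∑ A ∈ ev Q, (𝓔.filter (fun F => d < (symmDiff F A).card)).card : ℕ) : ℝ) ≤
      4 * U d (Fintype.card V) := by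
    refine le_trans (Nat.cast_le.2 e2) ?_
    rw [e3]
    push_cast
    rw [e6]
    linarith
  unfold U at e7
  have e8 : ∑ A ∈ ev Q, (𝓔.filter (fun F => d < (symmDiff F A).card)).card ≤
      4 * (Fintype.card V - 3).choose (d - 1) := by exact_mod_cast e7
  exact e8

end Pool.Agent.H92.Diam
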