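import Pool.Agent.H30.Diam.Stubs

set_option autoImplicit false

/-!
# DIAM-16: the loss in the theorem of Kruskal and Katona
-/

namespace Pool.Agent.H92.Diam

open Finset Pool.Agent.H30.Diam

lemma choose_half (b : ℕ) (M : ℕ) (h : 2 * b ≤ M) : (M + 1).choose b ≤ 2 * M.choose b := by
  cases b with
  | zero => simp
  | succ b =>
    have h1 : M.choose b ≤ M.choose (b + 1) := Nat.choose_le_succ_of_lt_half_left (by omega)
    rw [Nat.choose_succ_succ]
    simp only [Nat.succ_eq_add_one]
    omega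

lemma choose_halves (b : ℕ) (M : ℕ) (h : 2 * b ≤ M) (j : ℕ) :
    (M + j).choose b ≤ 2 ^ j * M.choose b := by
  induction j with
  | zero => simp
  | succ j ih =>
    calc (M + (j + 1)).choose b = (M + j + 1).choose b := rfl
      _ ≤ 2 * (M + j).choose b := choose_half b _ (by omega)
      _ ≤ 2 * (2 ^ j * M.choose b) := Nat.mul_le_mul_left _ ih
      _ = 2 ^ (j + 1) * M.choose b := by ring

lemma choose_ratio (M x : ℕ) : ∀ k, (2 ^ 11 + 1) * (x + k) ≤ M →
    2 ^ (11 * k) * M.choose x ≤ M.choose (x + k)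
  | 0, _ => by simp
  | k + 1, h => by
    have ih := choose_ratio M x k (by omega)
    have h1 : 2 ^ 11 * M.choose (x + k) ≤ M.choose (x + k + 1) := by
      have h2 := Nat.choose_succ_right_eq M (x + k)
      have h3 : 2 ^ 11 * (x + k + 1) ≤ M - (x + k) := by omega
      have h4 : 2 ^ 11 * M.choose (x + k) * (x + k + 1) ≤ M.choose (x + k + 1) * (x + k + 1) := by
        rw [h2]
        calc 2 ^ 11 * M.choose (x + k) * (x + k + 1) =
            M.choose (x + k) * (2 ^ 11 * (x + k + 1)) := by ring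
          _ ≤ M.choose (x + k) * (M - (x + k)) := Nat.mul_le_mul_left _ h3
      exact Nat.le_of_mul_le_mul_right h4 (by omega)
    calc 2 ^ (11 * (k + 1)) * M.choose x = 2 ^ 11 * (2 ^ (11 * k) * M.choose x) := by ring
      _ ≤ 2 ^ 11 * M.choose (x + k) := Nat.mul_le_mul_left _ ih
      _ ≤ M.choose (x + (k + 1)) := h1

open scoped FinsetFamily in
lemma kk_fin {m a b j : ℕ} (𝓖 𝓕 : Finset (Finset (Fin m))) (hG : ∀ G ∈ 𝓖, G.card = m - a)
    (hF : ∀ F ∈ 𝓕, F.card = b) (hX : ∀ G ∈ 𝓖, ∀ F ∈ 𝓕, ¬ F ⊆ G) (hj : j ≤ a) (ha : a ≤ m)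
    (hb : b ≤ m - a) (hc : (m - j).choose (a - j) ≤ 𝓖.card) :
    𝓕.card + (m - j).choose b ≤ m.choose b := by
  have h1 : (m - j).choose (m - a) ≤ 𝓖.card := by
    rw [← Nat.choose_symm (show m - a ≤ m - j by omega)]
    have : m - j - (m - a) = a - j := by omega
    rw [this]
    exact hc
  have h2 := kruskal_katona_lovasz_form (𝒜 := 𝓖) (i := m - a - b) (r := m - a) (k := m - j)
    (by omega) (by omega) (by omega) (fun G hG' => hG G hG') h1
  have h3 : m - a - (m - a - b) = b := by omega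
  rw [h3] at h2
  have h4 : Disjoint 𝓕 (∂^[m - a - b] 𝓖) := by
    rw [disjoint_left]
    intro F hF1 hF2
    obtain ⟨G, hG1, hG2, -⟩ := mem_shadow_iterate_iff_exists_mem_card_add.1 hF2
    exact hX G hG1 F hF1 hG2
  have h5 : 𝓕 ∪ (∂^[m - a - b] 𝓖) ⊆ powersetCard b univ := by
    intro F hF'
    rw [mem_powersetCard]
    refine ⟨subset_univ _, ?_⟩
    rcases mem_union.1 hF' with h | h
    · exact hF F h
    · obtain ⟨G, hG1, -, hG3⟩ := mem_shadow_iterate_iff_exists_mem_card_add.1 h
      rw [hG G hG1] at hG3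
      omega
  have h6 := card_le_card h5
  rw [card_union_of_disjoint h4, card_powersetCard, card_univ, Fintype.card_fin] at h6
  omega

section transport

variable {V : Type} [DecidableEq V] (R : Finset V)

/-- the embedding of `Fin R.card` -/
noncomputable def emb : Fin R.card ↪ V :=
  R.equivFin.symm.toEmbedding.trans (Function.Embedding.subtype _)

omit [DecidableEq V] in
lemma emb_mem (i : Fin R.card) : emb R i ∈ R := (R.equivFin.symm i).2

omit [DecidableEq V] in
lemma exists_emb {v : V} (hv : v ∈ R) : ∃ i, emb R i = v :=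
  ⟨R.equivFin ⟨v, hv⟩, by simp [emb]⟩

/-- the preimage -/
noncomputable def tr (S : Finset V) : Finset (Fin R.card) := univ.filter (fun i => emb R i ∈ S)

lemma mem_tr {S : Finset V} {i : Fin R.card} : i ∈ tr R S ↔ emb R i ∈ S := by
  rw [tr, mem_filter]
  simp

lemma map_tr {S : Finset V} (hS : S ⊆ R) : (tr R S).map (emb R) = S := by
  ext v
  rw [mem_map]
  constructor
  · rintro ⟨i, hi, rfl⟩
    exact (mem_tr R).1 hi
  · intro hv
    obtain ⟨i, rfl⟩ := exists_emb R (hS hv)
    exact ⟨i, (mem_tr R).2 hv, rfl⟩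

lemma card_tr {S : Finset V} (hS : S ⊆ R) : (tr R S).card = S.card := by
  conv_rhs => rw [← map_tr R hS, card_map]

end transport

theorem kk : S_kk := by
  intro V _ R a b s 𝓖 𝓕 hab hR hG hF hX hsm
  have hF' : 𝓕.card ≤ R.card.choose b := by
    rw [← card_powersetCard]
    exact card_le_card fun F h => mem_powersetCard.2 (hF F h)
  rcases 𝓖.eq_empty_or_nonempty with rfl | hne
  · simpa using hF'
  have hex : ∃ j, (R.card - j).choose (a - j) ≤ 𝓖.card := ⟨a, by
    rw [Nat.sub_self, Nat.choose_zero_right]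
    exact hne.card_pos⟩
  obtain ⟨j, hj, hmin⟩ : ∃ j, (R.card - j).choose (a - j) ≤ 𝓖.card ∧
      ∀ i < j, 𝓖.card < (R.card - i).choose (a - i) :=
    ⟨Nat.find hex, Nat.find_spec hex, fun i hi => not_le.1 (Nat.find_min hex hi)⟩
  have hja : j ≤ a := by
    by_contra hcon
    have h1 := hmin a (by omega)
    rw [Nat.sub_self, Nat.choose_zero_right] at h1
    have := hne.card_pos
    omega
  have hj0 : j ≠ 0 := by
    rintro rfl
    rw [Nat.sub_zero, Nat.sub_zero] at hj
    have h1 := choose_ratio R.card b s (by rw [← hab]; omega)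
    rw [← hab] at h1
    have h2 : 0 < R.card.choose a := Nat.choose_pos (by omega)
    have h3 : R.card.choose b ≤ R.card.choose a :=
      le_trans (Nat.le_mul_of_pos_left _ (by positivity)) h1
    have h4 : 𝓖.card ≤ 8 ^ s * 𝓖.card := Nat.le_mul_of_pos_left _ (by positivity)
    have h5 : 2 ^ 12 * 8 ^ s * 𝓖.card = 2 ^ 12 * (8 ^ s * 𝓖.card) := by ring
    rw [h5] at hsm
    omega
  -- the theorem of Kruskal and Katona
  have hcard : (𝓖.image fun G => (tr R G)ᶜ).card = 𝓖.card := by
    refine card_image_of_injOn fun G hG1 G' hG1' h => ?_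
    have h1 : tr R G = tr R G' := compl_injective h
    rw [← map_tr R (hG G hG1).1, h1, map_tr R (hG G' hG1').1]
  have hcardF : (𝓕.image fun F => tr R F).card = 𝓕.card := by
    refine card_image_of_injOn fun F hF1 F' hF1' h => ?_
    have h1 : tr R F = tr R F' := h
    rw [← map_tr R (hF F hF1).1, h1, map_tr R (hF F' hF1').1]
  have key : 𝓕.card + (R.card - j).choose b ≤ R.card.choose b := by
    rw [← hcardF]
    refine kk_fin (a := a) (𝓖.image fun G => (tr R G)ᶜ) (𝓕.image fun F => tr R F) ?_ ?_ ?_ hja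
      (by omega) (by omega) (by rw [hcard]; exact hj)
    · intro G' hG'
      obtain ⟨G, hG1, rfl⟩ := mem_image.1 hG'
      rw [card_compl, Fintype.card_fin, card_tr R (hG G hG1).1, (hG G hG1).2]
    · intro F' hF''
      obtain ⟨F, hF1, rfl⟩ := mem_image.1 hF''
      rw [card_tr R (hF F hF1).1, (hF F hF1).2]
    · intro G' hG' F' hF'' hsub
      obtain ⟨G, hG1, rfl⟩ := mem_image.1 hG'
      obtain ⟨F, hF1, rfl⟩ := mem_image.1 hF''
      refine hX G hG1 F hF1 ?_
      rw [disjoint_left]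
      intro v hvG hvF
      obtain ⟨i, rfl⟩ := exists_emb R ((hF F hF1).1 hvF)
      have h1 := hsub ((mem_tr R).2 hvF)
      rw [mem_compl, mem_tr] at h1
      exact h1 hvG
  suffices h : 2 ^ (s + 8) * 𝓖.card ≤ (R.card - j).choose b by omega
  by_cases hcase : j ≤ 2 * s + 1
  · have h1 := choose_halves b (R.card - j) (by omega) j
    rw [show R.card - j + j = R.card by omega] at h1
    have h2 : 2 ^ j * (R.card - j).choose b ≤ 2 ^ (2 * s + 1) * (R.card - j).choose b :=
      Nat.mul_le_mul_right _ (Nat.pow_le_pow_right (by norm_num) hcase)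
    have h3 : 2 ^ (2 * s + 1) * (2 ^ (s + 11) * 𝓖.card) ≤
        2 ^ (2 * s + 1) * (R.card - j).choose b := by
      refine le_trans (le_of_eq ?_) (hsm.trans (h1.trans h2))
      rw [show (8 : ℕ) = 2 ^ 3 by norm_num, ← pow_mul]
      ring
    have h4 := Nat.le_of_mul_le_mul_left h3 (by positivity)
    refine le_trans (Nat.mul_le_mul_right _ (Nat.pow_le_pow_right (by norm_num) ?_)) h4
    omega
  · have h1 := hmin (j - 1) (by omega)
    obtain ⟨k, hk⟩ : ∃ k, b = a - (j - 1) + k := ⟨b - (a - (j - 1)), by omega⟩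
    have h2 := choose_ratio (R.card - (j - 1)) (a - (j - 1)) k (by rw [← hk]; omega)
    rw [← hk] at h2
    have h3 := choose_half b (R.card - j) (by omega)
    rw [show R.card - j + 1 = R.card - (j - 1) by omega] at h3
    have h4 : 2 ^ (s + 9) ≤ 2 ^ (11 * k) := Nat.pow_le_pow_right (by norm_num) (by omega)
    have h5 : 2 ^ (s + 9) * 𝓖.card ≤ 2 * (R.card - j).choose b :=
      (Nat.mul_le_mul h4 h1.le).trans (h2.trans h3)
    have h6 : 2 ^ (s + 9) * 𝓖.card = 2 * (2 ^ (s + 8) * 𝓖.card) := by ring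
    rw [h6] at h5
    exact Nat.le_of_mul_le_mul_left h5 (by norm_num)

end Pool.Agent.H92.Diam
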