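import Pool.Agent.H30.Diam.Stubs
import Pool.Agent.H30.Diam.Basics

set_option autoImplicit false

/-!
# DIAM-7: large families have small leftovers
-/

namespace Pool.Agent.H92.Diam

open Finset Pool.Agent.H30.Diam

namespace Tail

lemma step54 (M k : ℕ) (h : 5 * k ≤ M + 1) : 4 * (M + 1).choose k ≤ 5 * M.choose k := by
  have h1 := Nat.choose_mul_succ_eq M k
  have h2 : 4 * (M + 1).choose k * (M + 1 - k) ≤ 5 * M.choose k * (M + 1 - k) := by
    calc 4 * (M + 1).choose k * (M + 1 - k) = 4 * ((M + 1).choose k * (M + 1 - k)) := by ring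
      _ = M.choose k * (4 * (M + 1)) := by rw [← h1]; ring
      _ ≤ M.choose k * (5 * (M + 1 - k)) := Nat.mul_le_mul_left _ (by omega)
      _ = 5 * M.choose k * (M + 1 - k) := by ring
  exact Nat.le_of_mul_le_mul_right h2 (by omega)

lemma three (m k : ℕ) (h : 5 * k ≤ m) (h3 : 3 ≤ m) (h5 : 5 * k + 3 ≤ m + 1) :
    m.choose k ≤ 2 * (m - 3).choose k := by
  obtain ⟨M, rfl⟩ : ∃ M, m = M + 3 := ⟨m - 3, by omega⟩
  have e1 := step54 M k (by omega)
  have e2 := step54 (M + 1) k (by omega)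
  have e3 := step54 (M + 2) k (by omega)
  rw [show M + 1 + 1 = M + 2 by rfl] at e2
  rw [show M + 2 + 1 = M + 3 by rfl] at e3
  rw [show M + 3 - 3 = M by omega]
  omega

lemma chain (m d : ℕ) (hd : 1 ≤ d) : ∀ r : ℕ,
    (m.choose (d - 1 + r) : ℝ) ≤ m.choose (d - 1) * ((m : ℝ) / d) ^ r
  | 0 => by simp
  | r + 1 => by
    have ih := chain m d hd r
    have hd0 : (0 : ℝ) < d := by exact_mod_cast hd
    have h1 : (m.choose (d - 1 + r + 1) : ℝ) * d ≤ m.choose (d - 1 + r) * m := by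
      have h2 := Nat.choose_succ_right_eq m (d - 1 + r)
      have h3 : m.choose (d - 1 + r + 1) * d ≤ m.choose (d - 1 + r) * m := by
        calc m.choose (d - 1 + r + 1) * d ≤ m.choose (d - 1 + r + 1) * (d - 1 + r + 1) :=
              Nat.mul_le_mul_left _ (by omega)
          _ = m.choose (d - 1 + r) * (m - (d - 1 + r)) := h2
          _ ≤ m.choose (d - 1 + r) * m := Nat.mul_le_mul_left _ (Nat.sub_le _ _)
      exact_mod_cast h3
    have h4 : (m.choose (d - 1 + (r + 1)) : ℝ) ≤ m.choose (d - 1 + r) * ((m : ℝ) / d) := by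
      rw [← mul_div_assoc, le_div_iff₀ hd0]
      exact h1
    calc (m.choose (d - 1 + (r + 1)) : ℝ) ≤ m.choose (d - 1 + r) * ((m : ℝ) / d) := h4
      _ ≤ m.choose (d - 1) * ((m : ℝ) / d) ^ r * ((m : ℝ) / d) :=
          mul_le_mul_of_nonneg_right ih (by positivity)
      _ = m.choose (d - 1) * ((m : ℝ) / d) ^ (r + 1) := by rw [pow_succ]; ring

lemma two_le_three (i : ℕ) : (2 * i + 1 : ℝ) ≤ 3 ^ i := by
  induction i with
  | zero => norm_num
  | succ i ih =>
    rw [pow_succ]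
    push_cast
    have : (0 : ℝ) ≤ i := Nat.cast_nonneg i
    linarith

lemma eps_pos (i : ℕ) : 0 < eps i := by
  unfold eps
  positivity

/-- the numerical estimate -/
lemma numeric {q : ℝ} (h0 : 0 < q) (h1 : q ≤ 1 / 10 ^ 15) (i j : ℕ) :
    q ^ (803 + 4 * i + 2 * j) ≤ q * (eps i / (2 * i + 1) / 4) * (1 / 40) ^ (2 * j + 1) := by
  have hq1 : q ≤ 1 := h1.trans (by norm_num)
  have e1 : q ^ 802 ≤ 1 / 81920 := by
    calc q ^ 802 ≤ q ^ 1 := pow_le_pow_of_le_one h0.le hq1 (by norm_num)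
      _ = q := pow_one q
      _ ≤ 1 / 81920 := h1.trans (by norm_num)
  have e2 : q ^ 4 ≤ 1 / 12288 := by
    calc q ^ 4 ≤ q ^ 1 := pow_le_pow_of_le_one h0.le hq1 (by norm_num)
      _ = q := pow_one q
      _ ≤ 1 / 12288 := h1.trans (by norm_num)
  have e3 : q ^ 2 ≤ 1 / 1600 := by
    calc q ^ 2 ≤ q ^ 1 := pow_le_pow_of_le_one h0.le hq1 (by norm_num)
      _ = q := pow_one q
      _ ≤ 1 / 1600 := h1.trans (by norm_num)
  have e4 : (q ^ 4) ^ i ≤ (1 / 12288) ^ i := pow_le_pow_left₀ (by positivity) e2 i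
  have e5 : (q ^ 2) ^ j ≤ (1 / 1600) ^ j := pow_le_pow_left₀ (by positivity) e3 j
  have e6 : ((1 : ℝ) / 12288) ^ i ≤ (1 / 4096) ^ i / (2 * i + 1) := by
    rw [le_div_iff₀ (by positivity)]
    calc ((1 : ℝ) / 12288) ^ i * (2 * i + 1) ≤ (1 / 12288) ^ i * 3 ^ i :=
          mul_le_mul_of_nonneg_left (two_le_three i) (by positivity)
      _ = (1 / 4096) ^ i := by
          rw [← mul_pow]
          norm_num
  have e7 : q ^ (803 + 4 * i + 2 * j) = q * (q ^ 802 * (q ^ 4) ^ i * (q ^ 2) ^ j) := by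
    rw [← pow_mul, ← pow_mul, show 803 + 4 * i + 2 * j = 1 + 802 + 4 * i + 2 * j by ring,
      pow_add, pow_add, pow_add, pow_one]
    ring
  have e8 : ((1 : ℝ) / 40) ^ (2 * j + 1) = 1 / 40 * (1 / 1600) ^ j := by
    rw [pow_succ, pow_mul]
    norm_num
    ring
  rw [e7, e8, mul_assoc q (eps i / (2 * i + 1) / 4)]
  refine mul_le_mul_of_nonneg_left ?_ h0.le
  calc q ^ 802 * (q ^ 4) ^ i * (q ^ 2) ^ j ≤
      1 / 81920 * ((1 / 4096) ^ i / (2 * i + 1)) * (1 / 1600) ^ j := by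
        have h2 : (0 : ℝ) ≤ (1 / 4096) ^ i / (2 * i + 1) := by positivity
        gcongr
        exact e4.trans e6
    _ = eps i / (2 * i + 1) / 4 * (1 / 40 * (1 / 1600) ^ j) := by
        unfold eps
        ring

end Tail

open Tail in
theorem tail (hblow : S_blow) (hslice : S_slice) : S_tail := by
  intro d m q hpar V _ _ hV i j B hj hB hsize
  obtain ⟨hd, h0, h1, hq⟩ := hpar
  have hq1 : q < 1 := lt_of_le_of_lt h1 (by norm_num)
  have hd0 : (0 : ℝ) < d := by exact_mod_cast hd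
  set P : ℝ := q ^ 1601 with hP
  set θ : ℝ := q ^ 1600 with hθ
  have hP0 : 0 < P := pow_pos h0 _
  have hθ0 : 0 < θ := pow_pos h0 _
  have hθ1 : θ ≤ 1 := pow_le_one₀ h0.le hq1.le
  have hqθ : q * θ = P := by rw [hθ, hP, ← pow_succ']
  have hPq : P ≤ q := by
    rw [← hqθ]
    exact mul_le_of_le_one_right h0.le hθ1
  have hP1 : P ≤ 1 := hPq.trans hq1.le
  -- `m` is large
  have hm0 : (40 * 10 ^ 15 * d : ℝ) ≤ m := by
    have h2 : P * m ≤ 1 / 10 ^ 15 * m :=
      mul_le_mul_of_nonneg_right (hPq.trans h1) (Nat.cast_nonneg m)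
    rw [hq] at h2
    have h3 : (10 : ℝ) ^ 15 * (1 / 10 ^ 15 * m) = m := by
      rw [← mul_assoc]
      norm_num
    calc (40 * 10 ^ 15 * d : ℝ) = 10 ^ 15 * (40 * d) := by ring
      _ ≤ 10 ^ 15 * (1 / 10 ^ 15 * m) := mul_le_mul_of_nonneg_left h2 (by positivity)
      _ = m := h3
  have hm : 100 * d ≤ m := by
    have h2 : (100 * d : ℝ) ≤ m := le_trans (by nlinarith) hm0
    exact_mod_cast h2
  have hmpos : (0 : ℝ) < m := by
    have : 0 < m := by omega
    exact_mod_cast this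
  have hU : 0 < U d m := by
    unfold U
    exact_mod_cast Nat.choose_pos (show d - 1 ≤ m - 3 by omega)
  have hs : 0 < eps i / (2 * i + 1) := div_pos (eps_pos i) (by positivity)
  have hBne : B.Nonempty := by
    rw [← card_pos]
    have h2 : (0 : ℝ) < B.card := lt_of_lt_of_le (mul_pos hs hU) hsize
    exact_mod_cast h2
  refine ⟨hBne, ?_⟩
  -- the measure of the up-set
  set μ : ℝ := Ev P (fun W : Finset V => ind (∃ F ∈ B, F ⊆ W)) with hμ
  have hsl := hslice V (d + 2 * j) P hP0 hP1 (by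
    rw [hV, hq]
    have h2 : (j : ℝ) ≤ 2 * d := by exact_mod_cast hj
    push_cast
    linarith) B hB
  rw [hV] at hsl
  have hch : (m.choose (d + 2 * j) : ℝ) ≤ 2 * U d m * ((m : ℝ) / d) ^ (2 * j + 1) := by
    have h2 := chain m d hd (2 * j + 1)
    rw [show d - 1 + (2 * j + 1) = d + 2 * j by omega] at h2
    refine h2.trans (mul_le_mul_of_nonneg_right ?_ (by positivity))
    unfold U
    exact_mod_cast three m (d - 1) (by omega) (by omega) (by omega)
  have hmd : ((m : ℝ) / d) * (P / 40) = 1 := by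
    field_simp
    linarith
  have hμ1 : eps i / (2 * i + 1) / 4 * (P / 40) ^ (2 * j + 1) ≤ μ := by
    have hμ0 : 0 ≤ μ := Ev_nonneg hP0.le hP1 fun W => ind_nonneg _
    have h2 : 1 / 2 * (eps i / (2 * i + 1) * U d m) ≤
        2 * U d m * ((m : ℝ) / d) ^ (2 * j + 1) * μ :=
      calc 1 / 2 * (eps i / (2 * i + 1) * U d m) ≤ 1 / 2 * (B.card : ℝ) :=
            mul_le_mul_of_nonneg_left hsize (by norm_num)
        _ ≤ (m.choose (d + 2 * j) : ℝ) * μ := hsl
        _ ≤ 2 * U d m * ((m : ℝ) / d) ^ (2 * j + 1) * μ := mul_le_mul_of_nonneg_right hch hμ0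
    have h3 : eps i / (2 * i + 1) / 4 ≤ ((m : ℝ) / d) ^ (2 * j + 1) * μ := by
      have h4 : (2 * U d m) * (eps i / (2 * i + 1) / 4) ≤
          (2 * U d m) * (((m : ℝ) / d) ^ (2 * j + 1) * μ) := by
        calc (2 * U d m) * (eps i / (2 * i + 1) / 4) =
            1 / 2 * (eps i / (2 * i + 1) * U d m) := by ring
          _ ≤ _ := h2
          _ = _ := by ring
      exact le_of_mul_le_mul_left h4 (by positivity)
    calc eps i / (2 * i + 1) / 4 * (P / 40) ^ (2 * j + 1) ≤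
        ((m : ℝ) / d) ^ (2 * j + 1) * μ * (P / 40) ^ (2 * j + 1) :=
          mul_le_mul_of_nonneg_right h3 (by positivity)
      _ = (((m : ℝ) / d) * (P / 40)) ^ (2 * j + 1) * μ := by rw [mul_pow]; ring
      _ = μ := by rw [hmd, one_pow, one_mul]
  have hμpos : 0 < μ := lt_of_lt_of_le (by positivity) hμ1
  -- the blow-up
  have hb := hblow V P q θ hP0 hθ0 hθ1 hq1 hqθ (univ : Finset V).toList (nodup_toList _) B hBne
    (fun F _ => by rw [toList_toFinset]; exact subset_univ F) (fun W => (lo B W).card)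
    (fun W F hF => lo_min W hF)
  have hb' : Ev q (fun W : Finset V => (θ⁻¹) ^ (lo B W).card) * μ ≤ 1 := hb
  set w := 2 * j + 1 + (i + j) / 200 with hw
  have hmk : Ev q (fun W : Finset V => ind (w < (lo B W).card)) ≤
      θ ^ (w + 1) * Ev q (fun W : Finset V => (θ⁻¹) ^ (lo B W).card) := by
    rw [← Ev_mul]
    refine Ev_mono h0.le hq1.le fun W => ?_
    by_cases hc : w < (lo B W).card
    · rw [ind_true hc]
      obtain ⟨r, hr⟩ : ∃ r, (lo B W).card = w + 1 + r := ⟨(lo B W).card - (w + 1), by omega⟩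
      rw [hr, pow_add (θ⁻¹), ← mul_assoc, ← mul_pow, mul_inv_cancel₀ hθ0.ne', one_pow, one_mul]
      exact one_le_pow₀ ((one_le_inv₀ hθ0).2 hθ1)
    · rw [ind_false hc]
      positivity
  have hexp : 1601 * (2 * j + 1) + (803 + 4 * i + 2 * j) ≤ 1600 * (w + 1) := by
    have h2 : i + j < 200 * ((i + j) / 200 + 1) := by omega
    omega
  have hkey : θ ^ (w + 1) ≤ q * μ := by
    have h2 : θ ^ (w + 1) ≤ q ^ (1601 * (2 * j + 1)) * q ^ (803 + 4 * i + 2 * j) := by
      rw [hθ, ← pow_mul, ← pow_add]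
      exact pow_le_pow_of_le_one h0.le hq1.le hexp
    have h3 := numeric h0 h1 i j
    calc θ ^ (w + 1) ≤ q ^ (1601 * (2 * j + 1)) * q ^ (803 + 4 * i + 2 * j) := h2
      _ ≤ q ^ (1601 * (2 * j + 1)) *
          (q * (eps i / (2 * i + 1) / 4) * (1 / 40) ^ (2 * j + 1)) :=
          mul_le_mul_of_nonneg_left h3 (by positivity)
      _ = q * (eps i / (2 * i + 1) / 4 * (P / 40) ^ (2 * j + 1)) := by
          have e : (P / 40) ^ (2 * j + 1) = P ^ (2 * j + 1) * (1 / 40) ^ (2 * j + 1) := by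
            rw [div_eq_mul_one_div, mul_pow]
          rw [e, pow_mul q 1601, ← hP]
          ring
      _ ≤ q * μ := mul_le_mul_of_nonneg_left hμ1 h0.le
  have hX : 0 ≤ Ev q (fun W : Finset V => (θ⁻¹) ^ (lo B W).card) :=
    Ev_nonneg h0.le hq1.le fun W => by positivity
  calc Ev q (fun W : Finset V => ind (w < (lo B W).card)) ≤
      θ ^ (w + 1) * Ev q (fun W : Finset V => (θ⁻¹) ^ (lo B W).card) := hmk
    _ ≤ q * μ * Ev q (fun W : Finset V => (θ⁻¹) ^ (lo B W).card) :=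
        mul_le_mul_of_nonneg_right hkey hX
    _ = q * (Ev q (fun W : Finset V => (θ⁻¹) ^ (lo B W).card) * μ) := by ring
    _ ≤ q * 1 := mul_le_mul_of_nonneg_left hb' h0.le
    _ = q := mul_one q

end Pool.Agent.H92.Diam
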